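import Pool.Agent.Lib.MP_0a5adf_nt.EXP.Base

/-!
# CLASS: section 7 of the paper
-/

set_option autoImplicit false

namespace Pool.Agent.Lib.MP_0a5adf_nt.EXP.H72

open Finset Pool.Agent.Lib.MP_0a5adf_nt.EXP

/-- the four letter factors -/
lemma letters :
    ((1 + (1 - 2 * (1181 / 2000 : ℝ)) ^ 4) / 2) ^ 3 * (3 / 2) ^ 4 / (1181 / 2000) ^ 12 ≤ 354 ∧
    ((1 + (1 - 2 * (1181 / 2000 : ℝ)) ^ 4) / 2) ^ 3 * (1 / 2) ^ 4 / (1 - 1181 / 2000) ^ 12 ≤ 354 ∧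
    ((1 + (1 - 2 * (131 / 200 : ℝ)) ^ 4) / 2) ^ 3 * (3 / 2) ^ 7 / (131 / 200) ^ 12 ≤ 354 ∧
    ((1 + (1 - 2 * (131 / 200 : ℝ)) ^ 4) / 2) ^ 3 * (1 / 2) ^ 7 / (1 - 131 / 200) ^ 12 ≤ 354 := by
  refine ⟨?_, ?_, ?_, ?_⟩ <;> norm_num

/-- the bookkeeping identity for a block with two kinds of letters -/
lemma block_identity {pa pb a a' b b' : ℝ} (ha : a ≠ 0) (ha' : a' ≠ 0) (hb : b ≠ 0) (hb' : b' ≠ 0)
    (j k j2 k2 : ℕ) :
    ((2 ^ (j + k) * 3 ^ j2 / 2 ^ (j + k + j2 + k2)) * (pa ^ (j + k) * pb ^ (j2 + k2) /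
      (a ^ j * a' ^ k * b ^ j2 * b' ^ k2) ^ 4)) ^ 3 * (3 ^ (j + j2) / 2 ^ (j + k + j2 + k2)) ^ 4 =
    (pa ^ 3 * (3 / 2) ^ 4 / a ^ 12) ^ j * (pa ^ 3 * (1 / 2) ^ 4 / a' ^ 12) ^ k *
      (pb ^ 3 * (3 / 2) ^ 7 / b ^ 12) ^ j2 * (pb ^ 3 * (1 / 2) ^ 7 / b' ^ 12) ^ k2 := by
  simp only [div_pow, mul_pow, ← pow_mul, pow_add, one_pow]
  field_simp
  ring

/-- the tree bound of a block -/
noncomputable def TB (m n j j2 : ℕ) : ℝ :=
  ((1 + (1 - 2 * (1181 / 2000 : ℝ)) ^ 4) / 2) ^ n * ((1 + (1 - 2 * (131 / 200 : ℝ)) ^ 4) / 2) ^ (m - n) /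
    ((1181 / 2000) ^ j * (1 - 1181 / 2000) ^ (n - j) * (131 / 200) ^ j2 *
      (1 - 131 / 200) ^ (m - n - j2)) ^ 4

lemma TB_nonneg (m n j j2 : ℕ) : 0 ≤ TB m n j j2 := by
  unfold TB
  apply div_nonneg
  · positivity
  · positivity

lemma block_le {m n j j2 : ℕ} (hn : n ≤ m) (hj : j ≤ n) (hj2 : j2 ≤ m - n) :
    ((2 ^ n * 3 ^ j2 / 2 ^ m) * TB m n j j2) ^ 3 * (3 ^ (j + j2) / 2 ^ m) ^ 4 ≤ (354 : ℝ) ^ m := by
  obtain ⟨k, rfl⟩ := Nat.exists_eq_add_of_le hj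
  obtain ⟨d, rfl⟩ := Nat.exists_eq_add_of_le hn
  have hd : j + k + d - (j + k) = d := by omega
  rw [hd] at hj2
  obtain ⟨k2, rfl⟩ := Nat.exists_eq_add_of_le hj2
  have e1 : j + k + (j2 + k2) - (j + k) = j2 + k2 := by omega
  have e2 : j + k - j = k := by omega
  have e3 : j2 + k2 - j2 = k2 := by omega
  have e4 : j + k + (j2 + k2) = j + k + j2 + k2 := by ring
  unfold TB
  rw [e1, e2, e3, e4, block_identity (by norm_num) (by norm_num) (by norm_num) (by norm_num)]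
  obtain ⟨h1, h2, h3, h4⟩ := letters
  have e5 : (354 : ℝ) ^ (j + k + j2 + k2) = 354 ^ j * 354 ^ k * 354 ^ j2 * 354 ^ k2 := by
    rw [pow_add, pow_add, pow_add]
  rw [e5]
  apply mul_le_mul _ (pow_le_pow_left₀ (by positivity) h4 _) (by positivity) (by positivity)
  apply mul_le_mul _ (pow_le_pow_left₀ (by positivity) h3 _) (by positivity) (by positivity)
  exact mul_le_mul (pow_le_pow_left₀ (by positivity) h1 _) (pow_le_pow_left₀ (by positivity) h2 _)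
    (by positivity) (by positivity)

lemma sum_lt (m n : ℕ) (hn : n ≤ m) : (∑ t : Fin m, if (t : ℕ) < n then 1 else 0) = n := by
  rw [Fin.sum_univ_eq_sum_range (fun t => if t < n then 1 else 0) m, Finset.sum_boole]
  have : (range m).filter (fun t => t < n) = range n := by
    ext t
    rw [mem_filter, mem_range, mem_range]
    omega
  rw [this, card_range, Nat.cast_id]

lemma sum_ge (m n : ℕ) (hn : n ≤ m) : (∑ t : Fin m, if (t : ℕ) < n then 0 else 1) = m - n := by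
  have h1 : (∑ t : Fin m, if (t : ℕ) < n then 1 else 0) +
      (∑ t : Fin m, if (t : ℕ) < n then 0 else 1) = m := by
    rw [← Finset.sum_add_distrib]
    have h2 : ∀ t : Fin m, ((if (t : ℕ) < n then 1 else 0) + (if (t : ℕ) < n then 0 else 1) : ℕ) = 1 := by
      intro t
      split_ifs <;> rfl
    rw [Finset.sum_congr rfl fun t _ => h2 t]
    simp
  rw [sum_lt m n hn] at h1
  omega

/-- the parameters -/
noncomputable def al (m n : ℕ) (t : Fin m) : ℝ := if (t : ℕ) < n then 1181 / 2000 else 131 / 200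

lemma prod_al (m n : ℕ) (hn : n ≤ m) : ∏ t : Fin m, (1 + (1 - 2 * al m n t) ^ 4) / 2 =
    ((1 + (1 - 2 * (1181 / 2000 : ℝ)) ^ 4) / 2) ^ n *
      ((1 + (1 - 2 * (131 / 200 : ℝ)) ^ 4) / 2) ^ (m - n) := by
  have h1 : ∀ t : Fin m, (1 + (1 - 2 * al m n t) ^ 4) / 2 =
      ((1 + (1 - 2 * (1181 / 2000 : ℝ)) ^ 4) / 2) ^ (if (t : ℕ) < n then 1 else 0) *
      ((1 + (1 - 2 * (131 / 200 : ℝ)) ^ 4) / 2) ^ (if (t : ℕ) < n then 0 else 1) := by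
    intro t
    unfold al
    split_ifs <;> simp
  rw [Finset.prod_congr rfl fun t _ => h1 t, Finset.prod_mul_distrib, Finset.prod_pow_eq_pow_sum,
    Finset.prod_pow_eq_pow_sum, sum_lt m n hn, sum_ge m n hn]

lemma wt_al (m n : ℕ) (hn : n ≤ m) (w : Fin m → Bool) : wt (al m n) w =
    (1181 / 2000) ^ pre w n * (1 - 1181 / 2000) ^ (n - pre w n) * (131 / 200) ^ suf w n *
      (1 - 131 / 200) ^ (m - n - suf w n) := by
  have h1 : ∀ t : Fin m, (if w t then al m n t else 1 - al m n t) =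
      (1181 / 2000 : ℝ) ^ (if (t : ℕ) < n then (w t).toNat else 0) *
      (1 - 1181 / 2000 : ℝ) ^ (if (t : ℕ) < n then 1 - (w t).toNat else 0) *
      (131 / 200 : ℝ) ^ (if (t : ℕ) < n then 0 else (w t).toNat) *
      (1 - 131 / 200 : ℝ) ^ (if (t : ℕ) < n then 0 else 1 - (w t).toNat) := by
    intro t
    unfold al
    cases w t <;> split_ifs <;> simp_all
  have h2 : (∑ t : Fin m, if (t : ℕ) < n then 1 - (w t).toNat else 0) = n - pre w n := by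
    have h3 : (∑ t : Fin m, if (t : ℕ) < n then 1 - (w t).toNat else 0) + pre w n = n := by
      unfold pre
      rw [← Finset.sum_add_distrib]
      refine (Finset.sum_congr rfl fun t _ => ?_).trans (sum_lt m n hn)
      cases w t <;> split_ifs <;> rfl
    omega
  have h4 : (∑ t : Fin m, if (t : ℕ) < n then 0 else 1 - (w t).toNat) = m - n - suf w n := by
    have h3 : (∑ t : Fin m, if (t : ℕ) < n then 0 else 1 - (w t).toNat) + suf w n = m - n := by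
      unfold suf
      rw [← Finset.sum_add_distrib]
      refine (Finset.sum_congr rfl fun t _ => ?_).trans (sum_ge m n hn)
      cases w t <;> split_ifs <;> rfl
    omega
  unfold wt
  rw [Finset.prod_congr rfl fun t _ => h1 t, Finset.prod_mul_distrib, Finset.prod_mul_distrib,
    Finset.prod_mul_distrib, Finset.prod_pow_eq_pow_sum, Finset.prod_pow_eq_pow_sum,
    Finset.prod_pow_eq_pow_sum, Finset.prod_pow_eq_pow_sum, h2, h4]
  rfl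

lemma tree_bound (hT : TreeStatement) (hW : WordsStatement) {m n j j2 : ℕ} (hn : n ≤ m)
    (C : Finset (Fin m → Bool)) (hC : ∀ w ∈ C, pre w n = j ∧ suf w n = j2) (v : ℤ) :
    (#{q ∈ quad C | (2 : ℤ) ^ m ∣ rr q.1 + rr q.2.1 - rr q.2.2.1 - rr q.2.2.2 - v} : ℝ) ≤
      TB m n j j2 := by
  have hp : (0 : ℝ) < (1181 / 2000) ^ j * (1 - 1181 / 2000) ^ (n - j) * (131 / 200) ^ j2 *
      (1 - 131 / 200) ^ (m - n - j2) := by
    apply mul_pos (mul_pos (mul_pos _ _) _) _ <;> exact pow_pos (by norm_num) _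
  have h := hT m (al m n) (fun t => by unfold al; split_ifs <;> norm_num) C (j + j2) _ hp
    (fun w hw => by
      obtain ⟨h1, h2⟩ := hC w hw
      refine ⟨?_, ?_⟩
      · rw [← hW.2.2.2 m n w, h1, h2]
      · rw [wt_al m n hn, h1, h2]) v
  rw [prod_al m n hn] at h
  unfold TB
  rw [le_div_iff₀ (by positivity)]
  exact h

/-- cancelling the power of `3` -/
lemma dvd_of_eq {m : ℕ} (e : ℕ) (a b c d : ℤ)
    (h : ((3 ^ e * a : ℤ) : ZMod (2 ^ m)) + ((3 ^ e * b : ℤ) : ZMod (2 ^ m)) =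
      ((3 ^ e * c : ℤ) : ZMod (2 ^ m)) + ((3 ^ e * d : ℤ) : ZMod (2 ^ m))) :
    (2 : ℤ) ^ m ∣ a + b - c - d := by
  have h1 : ((3 ^ e * (a + b - c - d) : ℤ) : ZMod (2 ^ m)) = 0 := by
    have h2 : (3 ^ e * (a + b - c - d) : ℤ) = (3 ^ e * a + 3 ^ e * b) - (3 ^ e * c + 3 ^ e * d) := by
      ring
    rw [h2, Int.cast_sub, Int.cast_add, Int.cast_add, h, sub_self]
  rw [ZMod.intCast_zmod_eq_zero_iff_dvd] at h1
  push_cast at h1
  have hcop : IsCoprime ((2 : ℤ) ^ m) (3 ^ e) := by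
    apply IsCoprime.pow
    exact ⟨-1, 1, by norm_num⟩
  exact hcop.dvd_of_dvd_mul_left h1

/-- **CLASS** -/
theorem class' (hCS : CsStatement) (hE : EnergyStatement) (hT : TreeStatement)
    (hW : WordsStatement) : ClassStatement := by
  classical
  intro c ε hε
  obtain ⟨m0, hm0⟩ := hE c ε hε
  refine ⟨max m0 1, fun m hm n j' j'' j3 J0 J1 J2 hcl hj3 hJ0 hJ1 hJ2 h1 h2 h3 h4 g => ?_⟩
  have hmm0 : m0 ≤ m := (le_max_left _ _).trans hm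
  have hm1 : 1 ≤ m := (le_max_right _ _).trans hm
  have hm1R : (1 : ℝ) ≤ m := by exact_mod_cast hm1
  -- the classes
  obtain ⟨Cl, hCl⟩ : ∃ Cl : Fin 3 → Finset (Fin m → Bool), Cl = fun i => univ.filter (fun w =>
    pre w (n i) = j' i ∧ suf w (n i) = j'' i ∧ rr w ≤ m * (2 ^ n i * 3 ^ j'' i)) := ⟨_, rfl⟩
  obtain ⟨C3, hC3⟩ : ∃ C3 : Finset (Fin m → Bool), C3 = univ.filter (fun w => ones w = j3) :=
    ⟨_, rfl⟩
  have hClm : ∀ i w, w ∈ Cl i ↔ (pre w (n i) = j' i ∧ suf w (n i) = j'' i ∧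
      rr w ≤ m * (2 ^ n i * 3 ^ j'' i)) := by
    intro i w
    rw [hCl]
    simp
  -- the energies of the first three blocks
  have hen : ∀ (i : Fin 3) (J e : ℕ), J ≤ ((i : ℕ) + 1) * m →
      2 ^ (((i : ℕ) + 1) * m) ≤ 2 ^ c * 3 ^ J →
      (#{q ∈ quad (Cl i) |
        ((3 ^ e * zeta J ((3 - i) * m) (rr q.1) : ℤ) : ZMod (2 ^ m)) +
          ((3 ^ e * zeta J ((3 - i) * m) (rr q.2.1) : ℤ) : ZMod (2 ^ m)) =
        ((3 ^ e * zeta J ((3 - i) * m) (rr q.2.2.1) : ℤ) : ZMod (2 ^ m)) +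
          ((3 ^ e * zeta J ((3 - i) * m) (rr q.2.2.2) : ℤ) : ZMod (2 ^ m))} : ℝ) ≤
      (16 * m * 2 ^ (ε * m)) * ((2 ^ n i * 3 ^ j'' i / 2 ^ m) * TB m (n i) (j' i) (j'' i)) := by
    intro i J e hJ hJ'
    obtain ⟨hn, hj, hj2, hR⟩ := hcl i
    have hRR : (2 : ℝ) ^ m ≤ 2 ^ n i * 3 ^ j'' i := by exact_mod_cast hR
    have h := hm0 m hmm0 i i.2 J hJ hJ' (Cl i) (m * (2 ^ n i * 3 ^ j'' i)) (TB m (n i) (j' i) (j'' i))
      (by nlinarith [show (0 : ℝ) < 2 ^ m by positivity])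
      (fun w hw => by
        have := ((hClm i w).mp hw).2.2
        exact_mod_cast this)
      (fun v => by
        refine le_trans (Nat.cast_le.mpr (Finset.card_le_card ?_)) (tree_bound hT hW hn (Cl i)
          (fun w hw => by
            have := (hClm i w).mp hw
            exact ⟨this.1, this.2.1⟩) v)
        intro q hq
        rw [mem_filter] at hq ⊢
        refine ⟨hq.1, ?_⟩
        rw [hq.2, sub_self]
        exact dvd_zero _)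
    refine le_trans (Nat.cast_le.mpr (Finset.card_le_card ?_)) (h.trans (le_of_eq ?_))
    · intro q hq
      rw [mem_filter] at hq ⊢
      exact ⟨hq.1, dvd_of_eq e _ _ _ _ hq.2⟩
    · ring
  have hen3 : (#{q ∈ quad C3 |
        ((rr q.1 : ℤ) : ZMod (2 ^ m)) + ((rr q.2.1 : ℤ) : ZMod (2 ^ m)) =
        ((rr q.2.2.1 : ℤ) : ZMod (2 ^ m)) + ((rr q.2.2.2 : ℤ) : ZMod (2 ^ m))} : ℝ) ≤
      TB m m j3 0 := by
    have hsuf : ∀ w : Fin m → Bool, suf w m = 0 := by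
      intro w
      unfold suf
      apply Finset.sum_eq_zero
      intro t _
      rw [if_pos t.2]
    refine le_trans (Nat.cast_le.mpr (Finset.card_le_card ?_)) (tree_bound hT hW (le_refl m) C3
      (fun w hw => by
        rw [hC3, mem_filter] at hw
        refine ⟨?_, hsuf w⟩
        have := hW.2.2.2 m m w
        rw [hsuf, add_zero, hw.2] at this
        exact this) 0)
    intro q hq
    rw [mem_filter] at hq ⊢
    refine ⟨hq.1, ?_⟩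
    have h5 := dvd_of_eq 0 (rr q.1) (rr q.2.1) (rr q.2.2.1) (rr q.2.2.2) (by
      simpa using hq.2)
    rw [sub_zero]
    exact h5
  -- Cauchy-Schwarz
  have hcs := hCS (Fin m → Bool) (ZMod (2 ^ m)) ![Cl 0, Cl 1, Cl 2, C3] ![
    fun w => ((3 ^ (j3 + (J2 - J0)) * zeta J0 ((3 - ((0 : Fin 3) : ℕ)) * m) (rr w) : ℤ) :
      ZMod (2 ^ m)),
    fun w => ((3 ^ (j3 + (J2 - J1)) * zeta J1 ((3 - ((1 : Fin 3) : ℕ)) * m) (rr w) : ℤ) :
      ZMod (2 ^ m)),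
    fun w => ((3 ^ j3 * zeta J2 ((3 - ((2 : Fin 3) : ℕ)) * m) (rr w) : ℤ) : ZMod (2 ^ m)),
    fun w => ((rr w : ℤ) : ZMod (2 ^ m))] ((g : ℤ) : ZMod (2 ^ m))
  rw [Fin.prod_univ_four] at hcs
  have hE0 := hen 0 J0 (j3 + (J2 - J0))
    (by
      have := hcl 0
      simp only [Fin.val_zero]
      omega)
    (by simpa using h1)
  have hE1 := hen 1 J1 (j3 + (J2 - J1))
    (by
      have h5 := hcl 0
      have h6 := hcl 1
      simp only [Fin.val_one]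
      omega)
    (by simpa using h2)
  have hE2 := hen 2 J2 j3
    (by
      have h5 := hcl 0
      have h6 := hcl 1
      have h7 := hcl 2
      simp only [Fin.val_two]
      omega)
    (by simpa using h3)
  obtain ⟨N, hN⟩ : ∃ N : ℕ, N = #{q : (Fin m → Bool) × (Fin m → Bool) × (Fin m → Bool) ×
      (Fin m → Bool) |
        (pre q.1 (n 0) = j' 0 ∧ suf q.1 (n 0) = j'' 0 ∧ rr q.1 ≤ m * (2 ^ n 0 * 3 ^ j'' 0)) ∧
        (pre q.2.1 (n 1) = j' 1 ∧ suf q.2.1 (n 1) = j'' 1 ∧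
          rr q.2.1 ≤ m * (2 ^ n 1 * 3 ^ j'' 1)) ∧
        (pre q.2.2.1 (n 2) = j' 2 ∧ suf q.2.2.1 (n 2) = j'' 2 ∧
          rr q.2.2.1 ≤ m * (2 ^ n 2 * 3 ^ j'' 2)) ∧ ones q.2.2.2 = j3 ∧
        (2 : ℤ) ^ m ∣ 3 ^ (j3 + (J2 - J0)) * zeta J0 (3 * m) (rr q.1)
          + 3 ^ (j3 + (J2 - J1)) * zeta J1 (2 * m) (rr q.2.1)
          + 3 ^ j3 * zeta J2 m (rr q.2.2.1) + rr q.2.2.2 - g} := ⟨_, rfl⟩
  rw [← hN]
  obtain ⟨N', hN'⟩ : ∃ N' : ℕ, N' = #{q ∈ Cl 0 ×ˢ Cl 1 ×ˢ Cl 2 ×ˢ C3 |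
      ((3 ^ (j3 + (J2 - J0)) * zeta J0 ((3 - ((0 : Fin 3) : ℕ)) * m) (rr q.1) : ℤ) : ZMod (2 ^ m)) +
      ((3 ^ (j3 + (J2 - J1)) * zeta J1 ((3 - ((1 : Fin 3) : ℕ)) * m) (rr q.2.1) : ℤ) :
        ZMod (2 ^ m)) +
      ((3 ^ j3 * zeta J2 ((3 - ((2 : Fin 3) : ℕ)) * m) (rr q.2.2.1) : ℤ) : ZMod (2 ^ m)) +
      ((rr q.2.2.2 : ℤ) : ZMod (2 ^ m)) = ((g : ℤ) : ZMod (2 ^ m))} := ⟨_, rfl⟩
  have hNN' : N ≤ N' := by
    rw [hN, hN']
    apply Finset.card_le_card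
    intro q hq
    rw [mem_filter] at hq ⊢
    obtain ⟨-, hq0, hq1, hq2, hq3, hq4⟩ := hq
    refine ⟨?_, ?_⟩
    · rw [mem_product, mem_product, mem_product]
      exact ⟨(hClm 0 _).mpr hq0, (hClm 1 _).mpr hq1, (hClm 2 _).mpr hq2, by
        rw [hC3, mem_filter]; exact ⟨mem_univ _, hq3⟩⟩
    · rw [← Int.cast_add, ← Int.cast_add, ← Int.cast_add, ← sub_eq_zero, ← Int.cast_sub,
        ZMod.intCast_zmod_eq_zero_iff_dvd]
      push_cast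
      simpa using hq4
  have hcs' : (N' : ℝ) ^ 4 ≤
      ((16 * m * 2 ^ (ε * m)) * ((2 ^ n 0 * 3 ^ j'' 0 / 2 ^ m) * TB m (n 0) (j' 0) (j'' 0))) *
      ((16 * m * 2 ^ (ε * m)) * ((2 ^ n 1 * 3 ^ j'' 1 / 2 ^ m) * TB m (n 1) (j' 1) (j'' 1))) *
      ((16 * m * 2 ^ (ε * m)) * ((2 ^ n 2 * 3 ^ j'' 2 / 2 ^ m) * TB m (n 2) (j' 2) (j'' 2))) *
      TB m m j3 0 := by
    have h6 := (Nat.cast_le (α := ℝ)).mpr hcs
    rw [Nat.cast_pow, Nat.cast_mul, Nat.cast_mul, Nat.cast_mul] at h6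
    rw [hN']
    refine h6.trans ?_
    refine mul_le_mul (mul_le_mul (mul_le_mul hE0 hE1 (Nat.cast_nonneg _) ?_) hE2
      (Nat.cast_nonneg _) ?_) hen3 (Nat.cast_nonneg _) ?_
    · exact (Nat.cast_nonneg _).trans hE0
    · exact mul_nonneg ((Nat.cast_nonneg _).trans hE0) ((Nat.cast_nonneg _).trans hE1)
    · exact mul_nonneg (mul_nonneg ((Nat.cast_nonneg _).trans hE0) ((Nat.cast_nonneg _).trans hE1))
        ((Nat.cast_nonneg _).trans hE2)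
  -- bookkeeping
  obtain ⟨K, hK⟩ : ∃ K : ℝ, K = 16 * m * 2 ^ (ε * m) := ⟨_, rfl⟩
  have hK0 : 0 ≤ K := by rw [hK]; positivity
  obtain ⟨Y, hY⟩ : ∃ Y : Fin 3 → ℝ, Y = fun i => (2 ^ n i * 3 ^ j'' i / 2 ^ m) *
    TB m (n i) (j' i) (j'' i) := ⟨_, rfl⟩
  have hY0 : ∀ i, 0 ≤ Y i := by
    intro i
    rw [hY]
    exact mul_nonneg (by positivity) (TB_nonneg _ _ _ _)
  have hYb : ∀ i, Y i ^ 3 * (3 ^ (j' i + j'' i) / 2 ^ m) ^ 4 ≤ (354 : ℝ) ^ m := by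
    intro i
    rw [hY]
    obtain ⟨hn, hj, hj2, -⟩ := hcl i
    exact block_le hn hj hj2
  have hT3 : TB m m j3 0 ^ 3 * (3 ^ j3 / 2 ^ m) ^ 4 ≤ (354 : ℝ) ^ m := by
    have h5 := block_le (le_refl m) hj3 (Nat.zero_le (m - m))
    rw [pow_zero, mul_one, div_self (by positivity), one_mul, add_zero] at h5
    exact h5
  have hD : (1 : ℝ) ≤ 2 ^ (4 * c) * ((3 ^ (j' 0 + j'' 0) / 2 ^ m) ^ 4 *
      (3 ^ (j' 1 + j'' 1) / 2 ^ m) ^ 4 * (3 ^ (j' 2 + j'' 2) / 2 ^ m) ^ 4 * (3 ^ j3 / 2 ^ m) ^ 4) := by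
    have h5 : (2 : ℝ) ^ (4 * c) * ((3 ^ (j' 0 + j'' 0) / 2 ^ m) ^ 4 *
      (3 ^ (j' 1 + j'' 1) / 2 ^ m) ^ 4 * (3 ^ (j' 2 + j'' 2) / 2 ^ m) ^ 4 * (3 ^ j3 / 2 ^ m) ^ 4) =
      (2 ^ c * 3 ^ (J2 + j3) / 2 ^ (4 * m)) ^ 4 := by
      have h6 : (3 : ℝ) ^ (J2 + j3) = 3 ^ (j' 0 + j'' 0) * 3 ^ (j' 1 + j'' 1) *
          3 ^ (j' 2 + j'' 2) * 3 ^ j3 := by
        rw [hJ2, hJ1, hJ0, pow_add, pow_add, pow_add]
      have h7 : (2 : ℝ) ^ (4 * m) = 2 ^ m * 2 ^ m * 2 ^ m * 2 ^ m := by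
        rw [← pow_add, ← pow_add, ← pow_add]
        congr 1
        ring
      have h8 : (2 : ℝ) ^ (4 * c) = (2 ^ c) ^ 4 := by rw [← pow_mul, mul_comm]
      rw [h6, h7, h8]
      field_simp
    rw [h5]
    apply one_le_pow₀
    rw [le_div_iff₀ (by positivity), one_mul]
    exact_mod_cast h4
  have hN4 : (N : ℝ) ^ 4 ≤ K ^ 3 * (Y 0 * Y 1 * Y 2 * TB m m j3 0) := by
    have h5 : (N : ℝ) ^ 4 ≤ (N' : ℝ) ^ 4 :=
      pow_le_pow_left₀ (Nat.cast_nonneg _) (Nat.cast_le.mpr hNN') 4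
    refine h5.trans (hcs'.trans (le_of_eq ?_))
    rw [hY, hK]
    ring
  have hT0 := TB_nonneg m m j3 0
  calc (N : ℝ) ^ 12 = ((N : ℝ) ^ 4) ^ 3 := by ring
    _ ≤ (K ^ 3 * (Y 0 * Y 1 * Y 2 * TB m m j3 0)) ^ 3 := pow_le_pow_left₀ (by positivity) hN4 3
    _ = K ^ 9 * (Y 0 ^ 3 * Y 1 ^ 3 * Y 2 ^ 3 * TB m m j3 0 ^ 3) * 1 := by ring
    _ ≤ K ^ 9 * (Y 0 ^ 3 * Y 1 ^ 3 * Y 2 ^ 3 * TB m m j3 0 ^ 3) *
        (2 ^ (4 * c) * ((3 ^ (j' 0 + j'' 0) / 2 ^ m) ^ 4 *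
      (3 ^ (j' 1 + j'' 1) / 2 ^ m) ^ 4 * (3 ^ (j' 2 + j'' 2) / 2 ^ m) ^ 4 *
        (3 ^ j3 / 2 ^ m) ^ 4)) := by
        apply mul_le_mul_of_nonneg_left hD
        have := hY0 0; have := hY0 1; have := hY0 2
        positivity
    _ = K ^ 9 * 2 ^ (4 * c) * ((Y 0 ^ 3 * (3 ^ (j' 0 + j'' 0) / 2 ^ m) ^ 4) *
        (Y 1 ^ 3 * (3 ^ (j' 1 + j'' 1) / 2 ^ m) ^ 4) *
        (Y 2 ^ 3 * (3 ^ (j' 2 + j'' 2) / 2 ^ m) ^ 4) *
        (TB m m j3 0 ^ 3 * (3 ^ j3 / 2 ^ m) ^ 4)) := by ring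
    _ ≤ K ^ 9 * 2 ^ (4 * c) * (354 ^ m * 354 ^ m * 354 ^ m * 354 ^ m) := by
        have hp : ∀ i, 0 ≤ Y i ^ 3 * (3 ^ (j' i + j'' i) / 2 ^ m : ℝ) ^ 4 := fun i => by
          have := hY0 i
          positivity
        apply mul_le_mul_of_nonneg_left _ (by positivity)
        refine mul_le_mul (mul_le_mul (mul_le_mul (hYb 0) (hYb 1) (hp 1) (by positivity)) (hYb 2)
          (hp 2) (by positivity)) hT3 (by positivity) (by positivity)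
    _ = (16 * m * 2 ^ (ε * m)) ^ 9 * 2 ^ (4 * c) * 354 ^ (4 * m) := by
        rw [hK]
        have h7 : (354 : ℝ) ^ (4 * m) = 354 ^ m * 354 ^ m * 354 ^ m * 354 ^ m := by
          rw [← pow_add, ← pow_add, ← pow_add]
          congr 1
          ring
        rw [h7]

end Pool.Agent.Lib.MP_0a5adf_nt.EXP.H72
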